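import Mathlib

/-!
# MP_fb7c1b_co: the lion number is not monotone under taking subgraphs

We exhibit a connected graph `G` on 8 vertices (11 edges) which two lions can clear, and an edge `e`
of `G` such that `G - e` is connected and cannot be cleared by two lions.
-/

namespace Pool.Agent.Results.MP_fb7c1b_co.EdgeDeletionHarder

section Defs
variable {V : Type*}

/-- The set of cleared vertices after one time step: `p i` and `q i` are the positions of lion `i`
before and after the step, and `C` is the set of cleared vertices before the step.  A vertex is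
cleared afterwards iff it holds a lion, or it was cleared and every contaminated neighbour `u` of
it is such that some lion crosses the edge from `v` to `u`. -/
def clearedAfter (G : SimpleGraph V) {k : ℕ} (p q : Fin k → V) (C : Set V) : Set V :=
  {v | (∃ i, q i = v) ∨ (v ∈ C ∧ ∀ u, G.Adj v u → u ∉ C → ∃ i, p i = v ∧ q i = u)}

/-- `Reach G p C`: the situation with lions at `p` and set `C` of cleared vertices can arise from
some placement of the lions by some sequence of moves. -/
inductive Reach (G : SimpleGraph V) {k : ℕ} : (Fin k → V) → Set V → Prop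
  | start (p : Fin k → V) : Reach G p (Set.range p)
  | move {p q : Fin k → V} {C : Set V} : Reach G p C →
      (∀ i, q i = p i ∨ G.Adj (p i) (q i)) → Reach G q (clearedAfter G p q C)

/-- `k` lions can clear `G`. -/
def CanClear (G : SimpleGraph V) (k : ℕ) : Prop := ∃ p : Fin k → V, Reach G p Set.univ

end Defs

/-! ### The two graphs -/

/-- Neighbourhoods in `G` as bit masks. -/
def nbG : Fin 8 → ℕ := ![128, 64, 192, 48, 168, 216, 166, 117]

/-- Neighbourhoods in `H` as bit masks. -/
def nbH : Fin 8 → ℕ := ![128, 64, 192, 48, 168, 88, 166, 85]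

/-- The graph `G` with edges 07, 16, 26, 27, 34, 35, 45, 47, 56, 57, 67. -/
def G : SimpleGraph (Fin 8) where
  Adj u v := (nbG u).testBit v = true
  symm := ⟨by decide +kernel⟩
  loopless := ⟨by decide +kernel⟩

instance : DecidableRel G.Adj := fun u v => inferInstanceAs (Decidable ((nbG u).testBit v = true))

lemma G_edges : ∀ u v : Fin 8, G.Adj u v ↔ (u, v) ∈ ([(0, 7), (1, 6), (2, 6), (2, 7), (3, 4),
    (3, 5), (4, 5), (4, 7), (5, 6), (5, 7), (6, 7)] : List (Fin 8 × Fin 8)) ∨
    (v, u) ∈ ([(0, 7), (1, 6), (2, 6), (2, 7), (3, 4), (3, 5), (4, 5), (4, 7), (5, 6), (5, 7),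
      (6, 7)] : List (Fin 8 × Fin 8)) := by decide +kernel

/-- The graph `H`, obtained from `G` by deleting the edge 57. -/
def H : SimpleGraph (Fin 8) := G.deleteEdges {s(5, 7)}

lemma H_adj : ∀ u v : Fin 8, H.Adj u v ↔ (nbH u).testBit v = true := by
  have h : ∀ u v : Fin 8, ((nbG u).testBit v = true ∧ ¬ s(u, v) = s(5, 7)) ↔
      (nbH u).testBit v = true := by decide +kernel
  intro u v
  rw [← h u v]
  unfold H
  rw [SimpleGraph.deleteEdges_adj, Set.mem_singleton_iff]
  rfl

/-! ### Two lions clear `G` -/

/-- Sets of vertices from bit masks. -/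
def toS (m : ℕ) : Set (Fin 8) := {v | m.testBit v = true}

/-- One step, in terms of bit masks. -/
def okStep (p q : Fin 2 → Fin 8) (m m' : ℕ) : Prop :=
  (∀ i, q i = p i ∨ (nbG (p i)).testBit (q i) = true) ∧
  ∀ v : Fin 8, ((∃ i, q i = v) ∨ (m.testBit v = true ∧ ∀ u : Fin 8, (nbG v).testBit u = true →
    ¬ m.testBit u = true → ∃ i, p i = v ∧ q i = u)) ↔ m'.testBit v = true

instance (p q : Fin 2 → Fin 8) (m m' : ℕ) : Decidable (okStep p q m m') := by
  unfold okStep; infer_instance

lemma reach_step {p : Fin 2 → Fin 8} {m : ℕ} (h : Reach G p (toS m)) (q : Fin 2 → Fin 8) (m' : ℕ)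
    (hs : okStep p q m m') : Reach G q (toS m') := by
  have h1 := Reach.move h hs.1
  have h2 : clearedAfter G p q (toS m) = toS m' := by
    ext v
    exact hs.2 v
  rw [h2] at h1
  exact h1

lemma reach_start : Reach G ![0, 0] (toS 1) := by
  have h1 : Set.range (![0, 0] : Fin 2 → Fin 8) = toS 1 := by
    ext v
    have : ∀ v : Fin 8, (∃ i, (![0, 0] : Fin 2 → Fin 8) i = v) ↔ (1 : ℕ).testBit v = true := by
      decide +kernel
    exact this v
  rw [← h1]
  exact Reach.start _

lemma canClear_G : CanClear G 2 := by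
  have r1 := reach_step reach_start ![0, 7] 129 (by decide +kernel)
  have r2 := reach_step r1 ![0, 6] 65 (by decide +kernel)
  have r3 := reach_step r2 ![7, 1] 131 (by decide +kernel)
  have r4 := reach_step r3 ![2, 6] 71 (by decide +kernel)
  have r5 := reach_step r4 ![7, 6] 198 (by decide +kernel)
  have r6 := reach_step r5 ![7, 5] 230 (by decide +kernel)
  have r7 := reach_step r6 ![0, 7] 199 (by decide +kernel)
  have r8 := reach_step r7 ![7, 6] 199 (by decide +kernel)
  have r9 := reach_step r8 ![7, 5] 231 (by decide +kernel)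
  have r10 := reach_step r9 ![4, 5] 247 (by decide +kernel)
  have r11 := reach_step r10 ![4, 3] 255 (by decide +kernel)
  refine ⟨![4, 3], ?_⟩
  have : toS 255 = Set.univ := by
    ext v
    have h : ∀ v : Fin 8, (255 : ℕ).testBit v = true := by decide +kernel
    exact ⟨fun _ => trivial, fun _ => h v⟩
  rwa [this] at r11

/-! ### Two lions cannot clear `H` -/

/-- For lions at `a` and `b`, every reachable cleared set is contained in one of these. -/
def table : List (List ℕ) :=
  [[7, 25],
   [59, 71, 135],
   [61, 71, 133],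
   [25, 79, 143],
   [25, 87, 151],
   [57, 103, 167],
   [71, 91, 93, 121, 197],
   [135, 185],
   [59, 71, 135],
   [7, 42],
   [62, 70, 135],
   [42, 79, 143],
   [58, 87, 151],
   [42, 103, 167],
   [71, 122],
   [135, 171, 174, 186, 198],
   [61, 71, 133],
   [62, 70, 135],
   [7, 60, 70, 133],
   [28, 44, 78, 141],
   [23, 54, 60, 86, 149],
   [39, 53, 60, 102, 165],
   [71, 94, 110, 124, 197],
   [135, 157, 173, 188, 198],
   [25, 79, 143],
   [42, 79, 143],
   [28, 44, 78, 141],
   [25, 42],
   [25, 58, 94],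
   [42, 57, 173],
   [75, 78, 89, 104, 205],
   [139, 141, 152, 170, 206],
   [25, 87, 151],
   [58, 87, 151],
   [23, 54, 60, 86, 149],
   [25, 58, 94],
   [25, 86],
   [51, 57, 58, 118, 181],
   [83, 86, 89, 90, 92, 114, 120, 213],
   [147, 149, 153, 178, 184, 214],
   [57, 103, 167],
   [42, 103, 167],
   [39, 53, 60, 102, 165],
   [42, 57, 173],
   [51, 57, 58, 118, 181],
   [42, 165],
   [99, 102, 106, 113, 120, 229],
   [163, 165, 169, 170, 172, 177, 184, 230],
   [71, 91, 93, 121, 197],
   [71, 122],
   [71, 94, 110, 124, 197],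
   [75, 78, 89, 104, 205],
   [83, 86, 89, 90, 92, 114, 120, 213],
   [99, 102, 106, 113, 120, 229],
   [71, 90, 92, 106, 120, 197],
   [197, 198, 203, 217, 218, 220, 233, 234, 236, 248],
   [135, 185],
   [135, 171, 174, 186, 198],
   [135, 157, 173, 188, 198],
   [139, 141, 152, 170, 206],
   [147, 149, 153, 178, 184, 214],
   [163, 165, 169, 170, 172, 177, 184, 230],
   [197, 198, 203, 217, 218, 220, 233, 234, 236, 248],
   [135, 153, 169, 172, 184, 198]]

/-- The entry of the table for lions at `a` and `b`. -/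
def tab (a b : Fin 8) : List ℕ := table.getD (8 * a.1 + b.1) []

/-- One step on bit masks, as a predicate. -/
def stepB (a b a' b' : Fin 8) (m : ℕ) (v : Fin 8) : Bool :=
  a' == v || b' == v || (m.testBit v && (List.finRange 8).all fun u =>
    !((nbH v).testBit u) || m.testBit u || (a == v && a' == u) || (b == v && b' == u))

lemma tab_step : ∀ a b : Fin 8, ∀ m ∈ tab a b, ∀ a' b' : Fin 8,
    (a' = a ∨ (nbH a).testBit a' = true) → (b' = b ∨ (nbH b).testBit b' = true) →
    ∃ m' ∈ tab a' b', ∀ v : Fin 8, stepB a b a' b' m v = true → m'.testBit v = true := by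
  decide +kernel

lemma tab_start : ∀ a b : Fin 8, ∃ m ∈ tab a b, m.testBit a = true ∧ m.testBit b = true := by
  decide +kernel

lemma tab_full : ∀ a b : Fin 8, ∀ m ∈ tab a b, ∃ v : Fin 8, m.testBit v = false := by
  decide +kernel

/-- The invariant. -/
def Inv (p : Fin 2 → Fin 8) (C : Set (Fin 8)) : Prop :=
  ∃ m ∈ tab (p 0) (p 1), ∀ v ∈ C, m.testBit v = true

lemma inv_reach {p : Fin 2 → Fin 8} {C : Set (Fin 8)} (h : Reach H p C) : Inv p C := by
  induction h with
  | start p =>
    obtain ⟨m, hm, ha, hb⟩ := tab_start (p 0) (p 1)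
    refine ⟨m, hm, ?_⟩
    rintro v ⟨i, rfl⟩
    fin_cases i
    · exact ha
    · exact hb
  | @move p q C _ hmv ih =>
    obtain ⟨m, hm, hC⟩ := ih
    have hq : ∀ i, q i = p i ∨ (nbH (p i)).testBit (q i) = true := by
      intro i
      rcases hmv i with h | h
      · exact Or.inl h
      · exact Or.inr ((H_adj _ _).1 h)
    obtain ⟨m', hm', hsub⟩ := tab_step (p 0) (p 1) m hm (q 0) (q 1) (hq 0) (hq 1)
    refine ⟨m', hm', fun v hv => hsub v ?_⟩
    simp only [stepB, Bool.or_eq_true, beq_iff_eq, Bool.and_eq_true, List.all_eq_true,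
      Bool.not_eq_true']
    rcases hv with ⟨i, hi⟩ | ⟨hvC, hu⟩
    · left
      fin_cases i
      · exact Or.inl hi
      · exact Or.inr hi
    · right
      refine ⟨hC v hvC, fun u _ => ?_⟩
      by_cases hadj : (nbH v).testBit u = true
      · by_cases huC : u ∈ C
        · exact Or.inl (Or.inl (Or.inr (hC u huC)))
        · obtain ⟨i, hi, hi'⟩ := hu u ((H_adj _ _).2 hadj) huC
          fin_cases i
          · exact Or.inl (Or.inr ⟨hi, hi'⟩)
          · exact Or.inr ⟨hi, hi'⟩
      · exact Or.inl (Or.inl (Or.inl (by simpa using hadj)))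

lemma not_canClear_H : ¬ CanClear H 2 := by
  rintro ⟨p, hp⟩
  obtain ⟨m, hm, hall⟩ := inv_reach hp
  obtain ⟨v, hv⟩ := tab_full _ _ m hm
  have := hall v (Set.mem_univ v)
  rw [hv] at this
  exact absurd this (by decide)

/-! ### Connectedness -/

lemma conn_H : H.Connected := by
  rw [SimpleGraph.connected_iff_exists_forall_reachable]
  refine ⟨7, ?_⟩
  have a : ∀ u v : Fin 8, (nbH u).testBit v = true → H.Reachable u v :=
    fun u v h => ((H_adj u v).2 h).reachable
  have r0 := a 7 0 (by decide +kernel)
  have r2 := a 7 2 (by decide +kernel)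
  have r4 := a 7 4 (by decide +kernel)
  have r6 := a 7 6 (by decide +kernel)
  have r1 := r6.trans (a 6 1 (by decide +kernel))
  have r5 := r6.trans (a 6 5 (by decide +kernel))
  have r3 := r4.trans (a 4 3 (by decide +kernel))
  intro w
  fin_cases w
  · exact r0
  · exact r1
  · exact r2
  · exact r3
  · exact r4
  · exact r5
  · exact r6
  · exact SimpleGraph.Reachable.refl _

lemma conn_G : G.Connected := conn_H.mono (SimpleGraph.deleteEdges_le _)

/-- **Q1 is false.**  There are a connected graph `G` on 8 vertices and an edge `e` of `G` such that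
`G - e` is connected, two lions can clear `G`, and two lions cannot clear `G - e`. -/
theorem result : ∃ (G : SimpleGraph (Fin 8)) (e : Sym2 (Fin 8)), e ∈ G.edgeSet ∧ G.Connected ∧
    (G.deleteEdges {e}).Connected ∧ CanClear G 2 ∧ ¬ CanClear (G.deleteEdges {e}) 2 :=
  ⟨G, s(5, 7), by rw [SimpleGraph.mem_edgeSet]; decide +kernel, conn_G, conn_H, canClear_G,
    not_canClear_H⟩

end Pool.Agent.Results.MP_fb7c1b_co.EdgeDeletionHarder
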